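import Pool.Agent.Helper72_CS.PSAll

/-!
# MP_95ce84_an: elementary amenable subgroups of finite index subgroups of `C*`-stable groups

Let `G` be a `C*`-stable group, `L` a subgroup of finite index and `S` an elementary amenable subgroup
of `L`. Then the restrictions to `S` of the homomorphisms `L → ℝ` form a space of dimension at most one:
the image of `S` in `H_1(L; ℝ)` spans a space of dimension at most one. Free groups have this
property for all their (cyclic) amenable subgroups; among the groups excluded are those with a finite
index subgroup that has an infinite amenable direct factor and infinite abelianization modulo torsion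
in both factors, and all groups which retract virtually onto `ℤ²` or onto a polycyclic group with
first Betti number at least two.
-/

set_option autoImplicit false

namespace Pool.Agent.Results.MP_95ce84_an.ElemAmenableRank

open Pool.Agent.Helper72CS

/-- Let `G` be a countable discrete group which is `C*`-stable, `L` a subgroup of finite index and
`S ≤ L` an elementary amenable subgroup. Then any two homomorphisms `x, y : L → ℝ` restrict to linearly
dependent homomorphisms on `S`: `x(a) y(b) = x(b) y(a)` for all `a, b` in `S`. -/
theorem result (G : Type) [Group G] [Countable G] (hG : CStarStable G) (L : Subgroup G)
    [L.FiniteIndex] (S : Subgroup G) (hSL : S ≤ L) (hS : IsEA S)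
    (x y : L →* Multiplicative ℝ) (a b : L) (ha : (a : G) ∈ S) (hb : (b : G) ∈ S) :
    (x a).toAdd * (y b).toAdd = (x b).toAdd * (y a).toAdd :=
  rank_one_ea (weakStable_of_cstable hG) L S hSL hS x y a b ha hb

end Pool.Agent.Results.MP_95ce84_an.ElemAmenableRank
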