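import Pool.Agent.Helper72_CS.Main3

/-!
# MP_95ce84_an: (locally finite)-by-(virtually free) `C*`-stable groups are finite-by-free

Let `G` be a countable group with a locally finite normal subgroup `Λ` such that `G ⧸ Λ` is virtually
free (of any rank), and suppose that `C*(G)` is semiprojective. Then `Λ` is finite and `G` is virtually
free. So Q2 has a positive answer for these groups; for instance no infinite locally finite group
embeds as a normal subgroup with free quotient in a `C*`-stable group (lamplighter groups over free
groups and the like).
-/

set_option autoImplicit false

namespace Pool.Agent.Results.MP_95ce84_an.LocFinByFree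

open Pool.Agent.Helper72CS

/-- Let `G` be a countable discrete group which is `C*`-stable, `Λ` a normal subgroup of `G` every
finitely generated subgroup of which is finite, and `K` a free subgroup of finite index in `G ⧸ Λ`.
Then `Λ` is finite, and `G` has a free subgroup `H` of finite index. -/
theorem result (G : Type) [Group G] [Countable G] (hG : CStarStable G) (Λ : Subgroup G) [Λ.Normal]
    (hΛ : LocFin Λ) (K : Subgroup (G ⧸ Λ)) [K.FiniteIndex] [IsFreeGroup K] :
    Finite Λ ∧ ∃ H : Subgroup G, H.FiniteIndex ∧ IsFreeGroup H :=
  main_lf_free hG Λ hΛ K

end Pool.Agent.Results.MP_95ce84_an.LocFinByFree
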