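import Pool.Agent.Helper72_CS.Main2

/-!
# MP_95ce84_an: (locally finite)-by-(virtually solvable) `C*`-stable groups are f.g. and virtually cyclic

Let `G` be a countable group with a locally finite normal subgroup `Λ` such that `G ⧸ Λ` is virtually
solvable, and suppose that `C*(G)` is semiprojective. Then `G` is finitely generated and has a free
cyclic subgroup of finite index (trivial or infinite cyclic). With `Λ = 1` this is the case of
virtually solvable groups, with `Λ = G` that of locally finite groups. The group is not assumed finitely
generated or torsion free.
-/

set_option autoImplicit false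

namespace Pool.Agent.Results.MP_95ce84_an.LocFinBySolvable

open Pool.Agent.Helper72CS

/-- Let `G` be a countable discrete group which is `C*`-stable, `Λ` a normal subgroup of `G` every
finitely generated subgroup of which is finite, and `K` a solvable subgroup of finite index in `G ⧸ Λ`.
Then `G` is finitely generated, and it has a subgroup `H` of finite index which is free and cyclic
(so `H` is trivial or infinite cyclic); in particular `G` is virtually free. -/
theorem result (G : Type) [Group G] [Countable G] (hG : CStarStable G) (Λ : Subgroup G) [Λ.Normal]
    (hΛ : LocFin Λ) (K : Subgroup (G ⧸ Λ)) [K.FiniteIndex] [Group.IsSolvable K] :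
    Group.FG G ∧ ∃ H : Subgroup G, H.FiniteIndex ∧ IsFreeGroup H ∧ IsCyclic H := by
  obtain ⟨h1, H, h2, h3⟩ := main_lf_solvable hG Λ hΛ K ‹_›
  refine ⟨h1, H, h2, ?_⟩
  rcases h3 with rfl | ⟨⟨e⟩⟩
  · have e : FreeGroup Empty ≃* (⊥ : Subgroup G) :=
      { toFun := fun _ => 1
        invFun := fun _ => 1
        left_inv := fun x => by
          have : Subsingleton (FreeGroup Empty) :=
            Equiv.subsingleton FreeGroup.freeGroupEmptyEquivUnit
          exact Subsingleton.elim _ _
        right_inv := fun x => Subsingleton.elim _ _
        map_mul' := fun _ _ => Subsingleton.elim _ _ }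
    exact ⟨IsFreeGroup.ofMulEquiv e, inferInstance⟩
  · refine ⟨IsFreeGroup.ofMulEquiv ((FreeGroup.mulEquivIntOfUnique (α := Unit)).trans e.symm), ?_⟩
    exact isCyclic_of_surjective e.symm e.symm.surjective

end Pool.Agent.Results.MP_95ce84_an.LocFinBySolvable
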