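import Pool.Agent.Helper72_CS.H2

/-!
# MP_95ce84_an: the second real cohomology of a `C*`-stable group vanishes

If `G` is a countable discrete group and `C*(G)` is semiprojective, then `H²(G; ℝ) = 0`. No amenability,
finiteness or residual finiteness of `G` is assumed. For a real 2-cocycle `c` the twisted regular
representations of `G` with multiplier `exp (i t c)` are, as `t → 0`, almost representations of `G` in
the twisted group C*-algebras. By semiprojectivity they are close to honest representations, and the
trace of the logarithm of the difference turns `c` into a coboundary on every finite set.
-/

set_option autoImplicit false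

namespace Pool.Agent.Results.MP_95ce84_an.SecondCohomology

open Pool.Agent.Helper72CS

/-- Let `G` be a countable discrete group which is `C*`-stable. Then every real 2-cocycle `c` on `G`
(trivial coefficients, inhomogeneous cochains) is the coboundary of a function `b`, that is,
`H²(G; ℝ) = 0`. -/
theorem result (G : Type) [Group G] [Countable G] (hG : CStarStable G) (c : G → G → ℝ)
    (hc : ∀ g h k, c h k + c g (h * k) = c (g * h) k + c g h) :
    ∃ b : G → ℝ, ∀ g h, c g h = b g + b h - b (g * h) :=
  cocycle_isCoboundary hG hc

end Pool.Agent.Results.MP_95ce84_an.SecondCohomology
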